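import Mathlib
import Pool.Agent.KS6_26.SR.Final
import Pool.Graph.R_pool_sql_team_seeded_620a6dc7.Helper911_SL.Field

/-!
Q1 with a SIMPLE root, for every split, semisimple, simply connected group over `Q_p` and every
continuous character.
-/

set_option autoImplicit false

noncomputable section

open Topology Filter Pool.Agent.SplitGroup Pool.Agent.Chev

namespace Pool.Agent.Results.MP_f399a8_nt.SimpleRoot

/-- Let `G` be the split, semisimple, simply connected group over `Q_p` given by `b` and `V`, `C` a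
finite extension of `Q_p` and `χ` a continuous character of the torus `Z` of `G`, with values in
`C^×`. If `(Ind_B^G χ)^cts` is absolutely reducible, then with the half-sum `ρ` of the positive
roots (`δ^{1/2} = ρ` as an algebraic character) there are a SIMPLE root `α = α_k` and an integer
`a ≤ 0` with `χ(α^∨(x)) = x^a` and `(χ δ^{-1/2})(α^∨(x)) = x^{-1} x^a` for all `x`. -/
theorem result {p : ℕ} [Fact p.Prime] {I : Type} [Fintype I] [DecidableEq I] {L : Type} [LieRing L]
    [LieAlgebra ℚ_[p] L] {H : LieSubalgebra ℚ_[p] L} (b : LieAlgebra.Basis I H) {ι : Type}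
    [Fintype ι] [DecidableEq ι] (V : WeightRep b ι) {C : Type} [NormedField C]
    [NormedAlgebra ℚ_[p] C] [FiniteDimensional ℚ_[p] C] (χ : (I → ℚ_[p]ˣ) →* Cˣ)
    (hχ : Continuous χ) (hred : AbsReducible V χ) :
    ∃ ρ : I → ℤ, IsHalfSum b.A ρ ∧ ∃ (k : I) (a : ℤ),
      RootPair b.A (b.A k) (Pi.single k 1) ∧ IsPosRoot b.A (b.A k) ∧ a ≤ 0 ∧
        (∀ x : ℚ_[p]ˣ, ((χ (cochar (Pi.single k 1) x) : Cˣ) : C)
          = (algebraMap ℚ_[p] C (x : ℚ_[p])) ^ a) ∧
        ∀ x : ℚ_[p]ˣ, (χ (cochar (Pi.single k 1) x) : Cˣ) *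
            (algebraMap ℚ_[p] C (charVal ρ (cochar (Pi.single k 1) x) : ℚ_[p]ˣ))⁻¹
          = (algebraMap ℚ_[p] C (x : ℚ_[p]))⁻¹ * (algebraMap ℚ_[p] C (x : ℚ_[p])) ^ a := by
  obtain ⟨C', _, _, hfin, hred'⟩ := hred
  letI : NormedAlgebra ℚ_[p] C' := NormedAlgebra.restrictScalars ℚ_[p] C C'
  haveI : IsScalarTower ℚ_[p] C C' := IsScalarTower.of_algebraMap_eq fun x => rfl
  haveI : FiniteDimensional ℚ_[p] C' := FiniteDimensional.trans ℚ_[p] C C'
  haveI := Helper911.field_ultra p C'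
  haveI : CompleteSpace C' := FiniteDimensional.complete ℚ_[p] C'
  obtain ⟨rho, hd⟩ := Helper911.field_disc p C'
  have hcont : Continuous (baseChange C' χ) := by
    have h1 : Continuous (Units.map (algebraMap C C' : C →* C')) :=
      Continuous.units_map _ (continuous_algebraMap C C')
    exact h1.comp hχ
  obtain ⟨k, m, hm⟩ := KS6_26.SR.simple_V hd V (baseChange C' χ) hcont hred'
  have h3 : ∀ x : ℚ_[p]ˣ, ((χ (cochar (Pi.single k 1) x) : Cˣ) : C)
      = (algebraMap ℚ_[p] C (x : ℚ_[p])) ^ (-(m : ℤ)) := by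
    intro x
    have h1 : algebraMap C C' ((χ (cochar (Pi.single k 1) x) : Cˣ) : C)
        = algebraMap C C' (((algebraMap ℚ_[p] C (x : ℚ_[p])) ^ m)⁻¹) := by
      have h2 : ((baseChange C' χ (cochar (Pi.single k 1) x) : C'ˣ) : C')
          = ((algebraMap ℚ_[p] C' (x : ℚ_[p])) ^ m)⁻¹ := hm x
      rw [map_inv₀, map_pow]
      exact h2
    rw [(algebraMap C C').injective h1, zpow_neg, zpow_natCast]
  refine ⟨fun _ => 1, halfSum_one (toChev V), k, -(m : ℤ), RootPair.simple k,
    ⟨⟨_, RootPair.simple k⟩, (posWeight_iff V _).2 (Pool.Agent.Chev.pos_A (toChev V) k)⟩, by omega, h3,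
    fun x => ?_⟩
  have hx : (algebraMap ℚ_[p] C (x : ℚ_[p])) ≠ 0 := by
    rw [Ne, map_eq_zero]; exact x.ne_zero
  have h4 : charVal (fun _ => (1 : ℤ)) (cochar (Pi.single k 1) x) = x := by
    unfold charVal cochar
    simp only [zpow_one]
    rw [Finset.prod_eq_single k]
    · rw [Pi.single_eq_same, zpow_one]
    · intro j _ hj
      rw [Pi.single_eq_of_ne hj, zpow_zero]
    · intro h
      exact absurd (Finset.mem_univ _) h
  rw [h3, h4, mul_comm]

end Pool.Agent.Results.MP_f399a8_nt.SimpleRoot
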